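import Pool.Agent.W735.DP.Diag
import Pool.Agent.W735.DP.Inter

/-!
# MP_ff27c1_an, Q1: almost all primes form an interpolation set for distal systems

For every function `ω → ∞` there is a set `E` of primes with at most `ω(x) x / (log x)²` elements
up to `x` (for large `x`), and of relative density zero among the primes, such that the set of all
primes outside `E` is an interpolation set for distal systems.
-/

set_option autoImplicit false

namespace Pool.Agent.Results.MP_ff27c1_an.AlmostAllPrimes

open Filter Topology Pool.Agent.W735.DP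

/-- For every `ω → ∞` there is a set `E` of primes such that `#{p ∈ E : p ≤ x} ≤ ω(x) x / (log x)²`
for all large `x`, `#{p ∈ E : p ≤ x} / #{p prime : p ≤ x} → 0`, and the set of the primes not in
`E` is an interpolation set for distal systems. -/
theorem result : ∀ ω : ℕ → ℝ, Tendsto ω atTop atTop → ∃ E : Set ℕ, (∀ p ∈ E, p.Prime) ∧
    (∀ᶠ x : ℕ in atTop, (cnt E x : ℝ) ≤ ω x * (x / (Real.log x) ^ 2)) ∧
    Tendsto (fun x : ℕ => (cnt E x : ℝ) / cnt {p | p.Prime} x) atTop (𝓝 0) ∧
    IsInterpolationSet {p | p.Prime ∧ p ∉ E} := by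
  intro ω hω
  obtain ⟨E, h1, h2, h3, n, hn, hg, hr⟩ := exists_E ω hω
  exact ⟨E, h1, h2, h3, hr ▸ interp_of_gaps hn hg⟩

end Pool.Agent.Results.MP_ff27c1_an.AlmostAllPrimes
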