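import Pool.Agent.W735.DP.IPRec

/-!
# MP_ff27c1_an, Q1: a necessary condition, in conflict with the prime tuples conjecture

If the primes are an interpolation set for distal systems, then for every sequence `x 0, x 1, ...`
of positive integers there is a `k` such that only finitely many translates of the cube of all
subset sums of `x 0, ..., x (k - 1)` consist of primes; in particular the prime tuples conjecture
is false.
-/

set_option autoImplicit false

namespace Pool.Agent.Results.MP_ff27c1_an.TupleObstruction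

open Filter Topology Finset Pool.Agent.W735.DP

/-- `H` is admissible: for every prime `p` it misses some residue class mod `p` -/
def Admissible (H : Finset ℕ) : Prop := ∀ p : ℕ, p.Prime → ∃ a : ℕ, ∀ h ∈ H, ¬ h ≡ a [MOD p]

/-- the prime tuples conjecture of Hardy and Littlewood, qualitative form -/
def PrimeTuples : Prop :=
  ∀ H : Finset ℕ, Admissible H → {n : ℕ | ∀ h ∈ H, (n + h).Prime}.Infinite

/-- the cubes of subset sums of `(2^(i+1))!` are admissible -/
lemma admissible_cube (k : ℕ) : Admissible ((range k).powerset.image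
    fun s => ∑ i ∈ s, (2 ^ (i + 1)).factorial) := by
  classical
  intro p hp
  set J : Finset ℕ := (range k).filter fun i => 2 ^ (i + 1) < p with hJ
  have hJc : 2 ^ J.card < p := by
    rcases J.eq_empty_or_nonempty with h | h
    · rw [h, card_empty, pow_zero]
      exact hp.one_lt
    · set i := J.max' h with hi
      have h1 : 2 ^ (i + 1) < p := (mem_filter.1 (J.max'_mem h)).2
      have h2 : J ⊆ range (i + 1) := by
        intro j hj
        rw [mem_range]
        exact Nat.lt_succ_of_le (J.le_max' j hj)
      have h3 : J.card ≤ i + 1 := by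
        have := card_le_card h2
        rwa [card_range] at this
      exact lt_of_le_of_lt (Nat.pow_le_pow_right (by norm_num) h3) h1
  set R : Finset ℕ := J.powerset.image fun s => (∑ i ∈ s, (2 ^ (i + 1)).factorial) % p with hR
  have hRc : R.card < (range p).card := by
    rw [card_range]
    refine lt_of_le_of_lt card_image_le ?_
    rwa [card_powerset]
  obtain ⟨a, ha, haR⟩ := exists_mem_notMem_of_card_lt_card hRc
  refine ⟨a, ?_⟩
  intro h hh hmod
  rw [mem_image] at hh
  obtain ⟨s, hs, rfl⟩ := hh
  rw [mem_powerset] at hs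
  apply haR
  rw [hR, mem_image]
  refine ⟨s ∩ J, mem_powerset.2 inter_subset_right, ?_⟩
  have h1 : (∑ i ∈ s, (2 ^ (i + 1)).factorial) ≡ (∑ i ∈ s ∩ J, (2 ^ (i + 1)).factorial) [MOD p] := by
    have h2 : ∑ i ∈ s, (2 ^ (i + 1)).factorial = ∑ i ∈ s ∩ J, (2 ^ (i + 1)).factorial +
        ∑ i ∈ s \ J, (2 ^ (i + 1)).factorial := by
      rw [← sum_union (disjoint_of_subset_left inter_subset_right disjoint_sdiff)]
      congr 1
      ext i
      simp only [mem_union, mem_inter, Finset.mem_sdiff]
      tauto
    have h3 : p ∣ ∑ i ∈ s \ J, (2 ^ (i + 1)).factorial := by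
      refine dvd_sum fun i hi => ?_
      rw [Finset.mem_sdiff, hJ, mem_filter] at hi
      rw [hp.dvd_factorial]
      by_contra hlt
      push Not at hlt
      exact hi.2 ⟨hs hi.1, hlt⟩
    rw [h2]
    have h4 : ∑ i ∈ s \ J, (2 ^ (i + 1)).factorial ≡ 0 [MOD p] := (Nat.modEq_zero_iff_dvd).2 h3
    simpa using (Nat.ModEq.refl (∑ i ∈ s ∩ J, (2 ^ (i + 1)).factorial)).add h4
  have h5 : (∑ i ∈ s ∩ J, (2 ^ (i + 1)).factorial) ≡ a [MOD p] := h1.symm.trans hmod
  have h6 : a % p = a := Nat.mod_eq_of_lt (mem_range.1 ha)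
  rw [← h6]
  exact h5

/-- If the primes are an interpolation set for distal systems, then for every sequence `x` of
positive integers there is `k` such that `n + ∑_{i ∈ s} x i` is prime for all `s ⊆ {0, ..., k-1}`
for finitely many `n` only; in particular the prime tuples conjecture is false. -/
theorem result : IsInterpolationSet {p | p.Prime} →
    (∀ x : ℕ → ℕ, (∀ i, 0 < x i) →
      ∃ k : ℕ, {n : ℕ | ∀ s ⊆ range k, (n + ∑ i ∈ s, x i).Prime}.Finite) ∧ ¬ PrimeTuples := by
  intro hP
  have h1 : ∀ x : ℕ → ℕ, (∀ i, 0 < x i) →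
      ∃ k : ℕ, {n : ℕ | ∀ s ⊆ range k, (n + ∑ i ∈ s, x i).Prime}.Finite := fun x hx =>
    cube_finite hP x hx
  refine ⟨h1, fun hT => ?_⟩
  obtain ⟨k, hk⟩ := h1 (fun i => (2 ^ (i + 1)).factorial) fun i => Nat.factorial_pos _
  refine hT _ (admissible_cube k) (hk.subset ?_)
  intro n hn s hs
  exact hn _ (mem_image.2 ⟨s, mem_powerset.2 hs, rfl⟩)

end Pool.Agent.Results.MP_ff27c1_an.TupleObstruction
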